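import Pool.Agent.W292.RG.Stm

/-!
# Few vertices outside `S`, many vertices in `A`
-/

set_option autoImplicit false

namespace Pool.Agent.W398.RG

open Finset H331HC Pool.Agent.Helper879.ECD Pool.Agent.W292.RG

theorem M3 : St_P → St_M0 → St_M3 := by
  intro hP hM V _ _ G S W₀ A D r hr1 hr2 hr3 hnd hSW hSA hWA hS hcard
  -- a subset of even total size
  obtain ⟨A', hA'A, hA'c, hA'e⟩ : ∃ A' : Finset V, A' ⊆ A ∧ A.card ≤ A'.card + 1 ∧
      Even (W₀.card + A'.card) := by
    by_cases he : Even (W₀.card + A.card)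
    · exact ⟨A, Finset.Subset.refl _, by omega, he⟩
    · have hne : A.Nonempty := by
        rw [← Finset.card_pos]
        omega
      obtain ⟨a, ha⟩ := hne
      refine ⟨A.erase a, Finset.erase_subset _ _, ?_, ?_⟩
      · rw [Finset.card_erase_of_mem ha]
        omega
      · rw [Finset.card_erase_of_mem ha]
        have hpos : 0 < A.card := Finset.card_pos.mpr ⟨a, ha⟩
        rw [Nat.not_even_iff_odd] at he
        obtain ⟨q, hq⟩ := he
        exact ⟨q, by omega⟩
  have hWA' : Disjoint W₀ A' := Finset.disjoint_of_subset_right hA'A hWA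
  set W : Finset V := W₀ ∪ A' with hW
  have hWc : W.card = W₀.card + A'.card := Finset.card_union_of_disjoint hWA'
  obtain ⟨f, hf1, -, hf3, hf4⟩ := hP V G W D r W₀.card (fun x y => ¬ (x ∈ W₀ ∧ y ∈ W₀)) hnd hr2 hr3
    (by rw [hWc]; exact hA'e) (fun x y h h' => h ⟨h'.2, h'.1⟩)
    (by
      intro x _
      apply Finset.card_le_card
      intro y hy
      have := (Finset.mem_filter.mp hy).2
      rw [not_not] at this
      exact this.2)
    (by
      rw [hWc]
      have e : D * (r + 1) = D * r + D := by ring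
      rw [e]
      omega)
  have hW₀W : ∀ x ∈ W₀, x ∈ W := fun x hx => Finset.mem_union_left _ hx
  have hfA : ∀ x ∈ W₀, f x ∈ A' := by
    intro x hx
    obtain ⟨h1, -, -, h2⟩ := hf3 x (hW₀W x hx)
    rcases Finset.mem_union.mp h1 with h3 | h3
    · exact absurd ⟨hx, h3⟩ h2
    · exact h3
  set W' : Finset V := W₀ ∪ W₀.image f with hW'
  have hW'W : ∀ x ∈ W', x ∈ W := by
    intro x hx
    rcases Finset.mem_union.mp hx with h | h
    · exact hW₀W x h
    · obtain ⟨z, hz, rfl⟩ := Finset.mem_image.mp h
      exact (hf3 z (hW₀W z hz)).1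
  have hinj : Function.Injective f := fun x y h => by
    have := congrArg f h
    rwa [hf1, hf1] at this
  have hdis : Disjoint W₀ (W₀.image f) := by
    rw [Finset.disjoint_left]
    intro x hx hx2
    obtain ⟨z, hz, rfl⟩ := Finset.mem_image.mp hx2
    exact (Finset.disjoint_left.mp hWA' hx) (hfA z hz)
  have hW'c : W'.card = 2 * W₀.card := by
    rw [hW', Finset.card_union_of_disjoint hdis, Finset.card_image_of_injective _ hinj]
    ring
  have hSadj : ∀ s ∈ S, ∀ z ∈ W₀, G.Adj s z := by
    intro s hs z hz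
    apply hS s hs z (Finset.mem_union_right _ hz)
    rintro rfl
    exact (Finset.disjoint_left.mp hSW hs) hz
  refine hM V G S W' f ?_ ?_ ?_ ?_ ?_ ?_ ?_ _ ?_
  · rw [Finset.disjoint_left]
    intro s hs hs2
    rcases Finset.mem_union.mp hs2 with h | h
    · exact (Finset.disjoint_left.mp hSW hs) h
    · obtain ⟨z, hz, rfl⟩ := Finset.mem_image.mp h
      exact (Finset.disjoint_left.mp hSA hs) (hA'A (hfA z hz))
  · intro x hx
    rcases Finset.mem_union.mp hx with h | h
    · exact Finset.mem_union_right _ (Finset.mem_image_of_mem f h)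
    · obtain ⟨z, hz, rfl⟩ := Finset.mem_image.mp h
      rw [hf1]
      exact Finset.mem_union_left _ hz
  · intro x _
    exact hf1 x
  · intro x hx
    exact (hf3 x (hW'W x hx)).2.2.1
  · intro s hs t ht hst
    exact hS s hs t (Finset.mem_union_left _ ht) hst
  · intro x hx s hs hh
    rcases Finset.mem_union.mp hx with h | h
    · exact ((SimpleGraph.compl_adj G x s).mp hh.1).2 (hSadj s hs x h).symm
    · obtain ⟨z, hz, rfl⟩ := Finset.mem_image.mp h
      rw [hf1] at hh
      exact ((SimpleGraph.compl_adj G z s).mp hh.2).2 (hSadj s hs z hz).symm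
  · intro x hx y hy
    exact hf4 x (hW'W x hx) y (hW'W y hy)
  · rw [hW'c]
    ring

end Pool.Agent.W398.RG
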